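import Pool.Agent.Lib.MP_fa837f_gt.P2.Iface

/-!
Project P2, module BO: the inequality of Bochner type for `Lop ρ A`.
-/

set_option autoImplicit false

open MeasureTheory Matrix Set Filter Topology

namespace Pool.Agent.Lib.MP_fa837f_gt.P2.H91

variable {n k : ℕ}

/-! ### Algebra -/

lemma RR_quad (m : Fin n → Fin k → ℝ) (r : Fin n → ℝ) (x : Fin k → ℝ) :
    x ⬝ᵥ (RR m r *ᵥ x) = ∑ l, r l * (m l ⬝ᵥ x) ^ 2 := by
  unfold RR
  rw [Matrix.sum_mulVec, dotProduct_sum]
  refine Finset.sum_congr rfl fun l _ => ?_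
  rw [Matrix.smul_mulVec, dotProduct_smul, Matrix.vecMulVec_mulVec, smul_eq_mul]
  have : x ⬝ᵥ (MulOpposite.op (m l ⬝ᵥ x) • m l) = (m l ⬝ᵥ x) * (m l ⬝ᵥ x) := by
    simp only [dotProduct, Pi.smul_apply, MulOpposite.smul_eq_mul_unop, MulOpposite.unop_op]
    rw [Finset.sum_mul]
    refine Finset.sum_congr rfl fun i _ => ?_
    ring
  rw [this]
  ring

/-- The column `c` of the gradient. -/
noncomputable def gc (ψ : Pt k → ℝ) (y : Pt k) (c : Fin 3) : Fin k → ℝ := fun b => pd (b, c) ψ y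

lemma hf_col (S : Sys n k) (ψ : Pt k → ℝ) (y : Pt k) (a : Fin k) (c : Fin 3) :
    S.hf ψ y (a, c) = ((RR S.m (S.r y))⁻¹ *ᵥ gc ψ y c) a := by
  unfold Sys.hf Sys.A
  rw [Fintype.sum_prod_type]
  simp only [mulVec, dotProduct, gc, pd]
  refine Finset.sum_congr rfl fun b _ => ?_
  rw [Finset.sum_eq_single c]
  · simp
  · intro d _ hd
    simp [Ne.symm hd]
  · simp

lemma gam_col (S : Sys n k) (ψ : Pt k → ℝ) (y : Pt k) :
    Gam S.A ψ ψ y = ∑ c, gc ψ y c ⬝ᵥ ((RR S.m (S.r y))⁻¹ *ᵥ gc ψ y c) := by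
  have h1 : Gam S.A ψ ψ y = ∑ p, pd p ψ y * S.hf ψ y p := by
    unfold Gam Sys.hf
    refine Finset.sum_congr rfl fun p _ => ?_
    rw [Finset.mul_sum]
    refine Finset.sum_congr rfl fun q _ => ?_
    unfold pd
    ring
  rw [h1, Fintype.sum_prod_type_right]
  refine Finset.sum_congr rfl fun c _ => ?_
  unfold dotProduct
  refine Finset.sum_congr rfl fun a _ => ?_
  rw [hf_col]
  rfl

lemma Yv_hf (S : Sys n k) (ψ : Pt k → ℝ) (y : Pt k) (l : Fin n) (c : Fin 3) :
    Yv S.m (S.hf ψ y) l c = S.m l ⬝ᵥ ((RR S.m (S.r y))⁻¹ *ᵥ gc ψ y c) := by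
  unfold Yv
  simp only [hf_col]
  rfl


lemma gam_eq (S : Sys n k) (y : Pt k) (hB : BFacts S.m (S.r y)) (ψ : Pt k → ℝ) :
    Gam S.A ψ ψ y = ∑ l, S.r y l * Gm S.m (S.hf ψ y) l l := by
  have hu : IsUnit (RR S.m (S.r y)).det := hB.posdef.det_pos.ne'.isUnit
  have h1 : ∀ l, S.r y l * Gm S.m (S.hf ψ y) l l =
      ∑ c, S.r y l * (S.m l ⬝ᵥ ((RR S.m (S.r y))⁻¹ *ᵥ gc ψ y c)) ^ 2 := by
    intro l
    unfold Gm
    rw [Finset.mul_sum]
    refine Finset.sum_congr rfl fun c _ => ?_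
    rw [Yv_hf]
    ring
  rw [Finset.sum_congr rfl fun l _ => h1 l, Finset.sum_comm, gam_col]
  refine Finset.sum_congr rfl fun c _ => ?_
  rw [← RR_quad, Matrix.mulVec_mulVec, Matrix.mul_nonsing_inv _ hu, Matrix.one_mulVec,
    dotProduct_comm]

/-- The pointwise inequality, one index. -/
lemma point_ineq (δ r b L lam e N s : ℝ) (hδ0 : 0 < δ) (hδ1 : δ ≤ 1 / 4) (hr : 0 < r)
    (hb : 0 ≤ b) (hL : L = lam + e) (he : 0 < e) (hlam : 0 ≤ lam) (hN : 0 ≤ N) :
    r * N ≤ (r * b / L * N *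
          (3 / 2 - (1 - δ) * (lam / L) + 6 / 5 * δ
            - (1 / 4 + (3 / 5 * δ) ^ 2) * (lam / L))
        - r * (lam / L) * N
        - 12 / 5 * δ * (r / L) * s ^ 2
        - (12 / 5 * δ * (1 - δ) + 6 / 5 * δ + 5 * (3 / 5 * δ) ^ 2) *
          (r * b / L ^ 2) * s ^ 2)
      - 4 * δ ^ 2 * ((r * b) / L ^ 2 * (lam * N - s ^ 2))
      + (2 * r * N + 4 * δ * r / L * s ^ 2 - 2 * δ * (r * b) / L * N
        + 4 * δ * (1 - δ) * (r * b) / L ^ 2 * s ^ 2) := by
  have hLp : 0 < L := by rw [hL]; linarith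
  have hq0 : 0 ≤ lam / L := div_nonneg hlam hLp.le
  have hq1 : lam / L ≤ 1 := by rw [div_le_one hLp]; linarith
  have hP : 0 ≤ r * b / L * N := by positivity
  have hw : 0 ≤ r * b / L ^ 2 * s ^ 2 := by positivity
  have ht : 0 ≤ r / L * s ^ 2 := by positivity
  have hrN : 0 ≤ r * N := by positivity
  have hB1 : 0 ≤ 3 / 2 - 4 / 5 * δ - lam / L * (5 / 4 - δ + 109 / 25 * δ ^ 2) := by
    nlinarith [mul_nonneg (sub_nonneg.2 hq1) (show 0 ≤ 5 / 4 - δ + 109 / 25 * δ ^ 2 by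
      nlinarith), mul_nonneg hδ0.le (sub_nonneg.2 hδ1)]
  have e1 : r * b / L ^ 2 * (lam * N) = r * b / L * N * (lam / L) := by
    field_simp
  have key : (r * b / L * N *
          (3 / 2 - (1 - δ) * (lam / L) + 6 / 5 * δ
            - (1 / 4 + (3 / 5 * δ) ^ 2) * (lam / L))
        - r * (lam / L) * N
        - 12 / 5 * δ * (r / L) * s ^ 2
        - (12 / 5 * δ * (1 - δ) + 6 / 5 * δ + 5 * (3 / 5 * δ) ^ 2) *
          (r * b / L ^ 2) * s ^ 2)
      - 4 * δ ^ 2 * ((r * b) / L ^ 2 * (lam * N - s ^ 2))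
      + (2 * r * N + 4 * δ * r / L * s ^ 2 - 2 * δ * (r * b) / L * N
        + 4 * δ * (1 - δ) * (r * b) / L ^ 2 * s ^ 2) - r * N =
      (r * b / L * N) * (3 / 2 - 4 / 5 * δ - lam / L * (5 / 4 - δ + 109 / 25 * δ ^ 2))
      + (r * b / L ^ 2 * s ^ 2) * (2 / 5 * δ + 3 / 5 * δ ^ 2)
      + (r * N) * (1 - lam / L) + (r / L * s ^ 2) * (8 / 5 * δ) := by
    rw [mul_sub (r * b / L ^ 2), e1]
    ring
  have h1 := mul_nonneg hP hB1
  have h2 := mul_nonneg hw (show 0 ≤ 2 / 5 * δ + 3 / 5 * δ ^ 2 by positivity)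
  have h3 := mul_nonneg hrN (sub_nonneg.2 hq1)
  have h4 := mul_nonneg ht (show 0 ≤ 8 / 5 * δ by positivity)
  linarith

/-! ### Regularity -/

section reg

variable (S : Sys n k) (ψ : Pt k → ℝ)

lemma cd_hf (hR : RFacts S (0 : Fin n → ℝ)) (hψ : ContDiff ℝ (⊤ : ℕ∞) ψ) (p : Fin k × Fin 3) :
    ContDiff ℝ (⊤ : ℕ∞) fun y => S.hf ψ y p := by
  unfold Sys.hf
  refine ContDiff.sum fun q _ => ?_
  refine ContDiff.mul ?_ ?_
  · unfold Sys.A
    by_cases h : p.2 = q.2
    · simp only [h, if_true]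
      exact hR.sinv _ _
    · simp only [h, if_false]
      exact contDiff_const
  · exact (hψ.fderiv_right (m := (⊤ : ℕ∞)) (by simp)).clm_apply contDiff_const

lemma hf_zero {y : Pt k} (hy : y ∉ tsupport ψ) : S.hf ψ y = 0 := by
  funext p
  unfold Sys.hf
  simp [fderiv_of_notMem_tsupport ℝ hy]

lemma hf_ev {y : Pt k} (hy : y ∉ tsupport ψ) : S.hf ψ =ᶠ[𝓝 y] 0 := by
  filter_upwards [(isClosed_tsupport ψ).isOpen_compl.mem_nhds hy] with z hz
  exact hf_zero S ψ hz

lemma tst_hf (hR : RFacts S (0 : Fin n → ℝ)) (hψ : Tst ψ) (p : Fin k × Fin 3) :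
    Tst fun y => S.hf ψ y p := by
  refine ⟨cd_hf S ψ hR hψ.1 p, ?_⟩
  refine HasCompactSupport.intro hψ.2.isCompact fun y hy => ?_
  rw [hf_zero S ψ hy]
  rfl

/-- `(h_j)_d`. -/
noncomputable def Hh (j : Fin n) (d : Fin 3) (y : Pt k) : ℝ := Yv S.m (S.hf ψ y) j d

lemma cd_H (hR : RFacts S (0 : Fin n → ℝ)) (hψ : Tst ψ) (j : Fin n) (d : Fin 3) :
    ContDiff ℝ (⊤ : ℕ∞) (Hh S ψ j d) := by
  unfold Hh Yv
  exact ContDiff.sum fun a _ => contDiff_const.mul (cd_hf S ψ hR hψ.1 _)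

lemma H_zero (j : Fin n) (d : Fin 3) {y : Pt k} (hy : y ∉ tsupport ψ) : Hh S ψ j d y = 0 := by
  unfold Hh Yv
  rw [hf_zero S ψ hy]
  simp

lemma H_cs (hψ : Tst ψ) (j : Fin n) (d : Fin 3) : HasCompactSupport (Hh S ψ j d) :=
  HasCompactSupport.intro hψ.2.isCompact fun _ hy => H_zero S ψ j d hy

lemma X_zero (i : Fin n) (c : Fin 3) (j : Fin n) (d : Fin 3) {y : Pt k}
    (hy : y ∉ tsupport ψ) : S.D i c (Hh S ψ j d) y = 0 := by
  have h : Hh S ψ j d =ᶠ[𝓝 y] fun _ => 0 := by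
    filter_upwards [(isClosed_tsupport ψ).isOpen_compl.mem_nhds hy] with z hz
    exact H_zero S ψ j d hz
  unfold Sys.D
  rw [h.fderiv_eq]
  simp

lemma cont_fr (hR : RFacts S (0 : Fin n → ℝ)) (i : Fin n) (c : Fin 3) :
    Continuous fun y => S.fr y i c := by
  refine continuous_pi fun p => ?_
  unfold Sys.fr
  by_cases h : p.2 = c
  · simp only [h, if_true]
    exact (hR.sbb i p.1).continuous
  · simp only [h, if_false]
    exact continuous_const

lemma cont_D (hR : RFacts S (0 : Fin n → ℝ)) (hψ : Tst ψ) (i : Fin n) (c : Fin 3) (j : Fin n)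
    (d : Fin 3) : Continuous (S.D i c (Hh S ψ j d)) := by
  unfold Sys.D
  exact ((cd_H S ψ hR hψ j d).continuous_fderiv (by simp)).clm_apply (cont_fr S hR i c)

end reg

/-! ### The theorem -/

lemma int_cs {ψ f : Pt k → ℝ} (hψ : Tst ψ) (hf : Continuous f) (h0 : ∀ y, y ∉ tsupport ψ → f y = 0) :
    Integrable f :=
  hf.integrable_of_hasCompactSupport (HasCompactSupport.intro hψ.2.isCompact h0)

lemma int3 {f g h : Pt k → ℝ} (hf : Integrable f) (hg : Integrable g) (hh : Integrable h) :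
    ∫ y, (f y - g y + h y) = (∫ y, f y) - (∫ y, g y) + ∫ y, h y := by
  have h1 : ∫ y, (f y - g y + h y) = (∫ y, (f y - g y)) + ∫ y, h y := integral_add (hf.sub hg) hh
  rw [h1, integral_sub hf hg]

/-- BO. -/
theorem bo_st (hWa : WaStatement) (hSl : SlStatement) (hSr : SrStatement) (hFb : FbStatement)
    (hHe : HeStatement) (hAl : AlStatement) (hHa : HaStatement) : BoStatement := by
  intro n k S ψ hψ
  have hL := hSl n k S
  have hR := hSr n k S (0 : Fin n → ℝ)
  have hB : ∀ y, BFacts S.m (S.r y) := fun y => hWa n k S.m (S.r y) S.hm (hL.rpos y)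
  have cr : ∀ l, Continuous fun y => S.r y l := fun l => (hL.sr l).continuous
  have cL : ∀ l, Continuous fun y => S.L y l := fun l => (hL.sL l).continuous
  have cY : ∀ l c, Continuous fun y => Yv S.m y l c := fun l c => (hL.sY l c).continuous
  have cb : ∀ l j, Continuous fun y => be S.m (S.r y) l j := fun l j => (hR.sbe l j).continuous
  have crho : Continuous S.rho := hR.srho.continuous
  have cH : ∀ j d, Continuous (Hh S ψ j d) := fun j d => (cd_H S ψ hR hψ j d).continuous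
  have cX : ∀ i c j d, Continuous (S.D i c (Hh S ψ j d)) := fun i c j d => cont_D S ψ hR hψ i c j d
  have cG : ∀ l, Continuous fun y => Gm S.m y l l := fun l => by
    unfold Gm
    exact continuous_finsetSum _ fun c _ => (cY l c).mul (cY l c)
  have Lne : ∀ l y, S.L y l ≠ 0 := fun l y => (hL.Lpos y l).ne'
  -- the functions
  let w : Pt k → ℝ := fun z => Real.log (S.rho z)
  have cw : ContDiff ℝ (⊤ : ℕ∞) w := hR.srho.log fun y => (hR.rhopos y).ne'
  have hexp : ∀ y, Real.exp (w y) = S.rho y := fun y => Real.exp_log (hR.rhopos y)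
  let T1 : Pt k → ℝ := fun y => ∑ p, ∑ q, pd p (fun z => S.hf ψ z q) y *
    pd q (fun z => S.hf ψ z p) y
  let T2 : Pt k → ℝ := fun y => ∑ p, ∑ q, S.hf ψ y p * S.hf ψ y q *
    pd p (fun z => pd q w z) y
  let N : Fin n → Pt k → ℝ := fun l y => ∑ d, Hh S ψ l d y ^ 2
  let s : Fin n → Pt k → ℝ := fun l y => ∑ d, Yv S.m y l d * Hh S ψ l d y
  let Q1 : Fin n → Pt k → ℝ := fun j y =>
    ∑ d, ∑ i, ∑ c, S.r y j * (S.r y i * S.D i c (Hh S ψ j d) y ^ 2)
  let HAj : Fin n → Pt k → ℝ := fun j y =>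
    S.r y j * be S.m (S.r y) j j / S.L y j * N j y *
          (3 / 2 - (1 - S.δ) * (Gm S.m y j j / S.L y j) + 6 / 5 * S.δ
            - (1 / 4 + (3 / 5 * S.δ) ^ 2) * (Gm S.m y j j / S.L y j))
        - S.r y j * (Gm S.m y j j / S.L y j) * N j y
        - 12 / 5 * S.δ * (S.r y j / S.L y j) * s j y ^ 2
        - (12 / 5 * S.δ * (1 - S.δ) + 6 / 5 * S.δ + 5 * (3 / 5 * S.δ) ^ 2) *
          (S.r y j * be S.m (S.r y) j j / S.L y j ^ 2) * s j y ^ 2
  let Q2 : Fin n → Pt k → ℝ := fun l y =>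
    4 * S.δ ^ 2 * ((S.r y l * be S.m (S.r y) l l) / S.L y l ^ 2 *
      (Gm S.m y l l * N l y - s l y ^ 2))
  let Q3 : Fin n → Pt k → ℝ := fun l y =>
    2 * S.r y l * N l y + 4 * S.δ * S.r y l / S.L y l * s l y ^ 2
      - 2 * S.δ * (S.r y l * be S.m (S.r y) l l) / S.L y l * N l y
        + 4 * S.δ * (1 - S.δ) * (S.r y l * be S.m (S.r y) l l) / S.L y l ^ 2 * s l y ^ 2
  have hGN : ∀ l y, Gm S.m (S.hf ψ y) l l = N l y := fun l y => by
    change (∑ c, Yv S.m (S.hf ψ y) l c * Yv S.m (S.hf ψ y) l c) =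
      ∑ d, Yv S.m (S.hf ψ y) l d ^ 2
    exact Finset.sum_congr rfl fun c _ => by ring
  have cN : ∀ l, Continuous (N l) := fun l =>
    continuous_finsetSum _ fun d _ => (cH l d).pow 2
  have cs : ∀ l, Continuous (s l) := fun l =>
    continuous_finsetSum _ fun d _ => (cY l d).mul (cH l d)
  have N0 : ∀ l y, y ∉ tsupport ψ → N l y = 0 := fun l y hy => by
    change (∑ d, Hh S ψ l d y ^ 2) = 0
    simp [H_zero S ψ l _ hy]
  have s0 : ∀ l y, y ∉ tsupport ψ → s l y = 0 := fun l y hy => by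
    change (∑ d, Yv S.m y l d * Hh S ψ l d y) = 0
    simp [H_zero S ψ l _ hy]
  have cQ1 : ∀ j, Continuous (Q1 j) := fun j =>
    continuous_finsetSum _ fun d _ => continuous_finsetSum _ fun i _ =>
      continuous_finsetSum _ fun c _ => (cr j).mul ((cr i).mul ((cX i c j d).pow 2))
  have Q10 : ∀ j y, y ∉ tsupport ψ → Q1 j y = 0 := fun j y hy => by
    change (∑ d, ∑ i, ∑ c, S.r y j * (S.r y i * S.D i c (Hh S ψ j d) y ^ 2)) = 0
    simp [X_zero S ψ _ _ _ _ hy]
  have cdiv : ∀ (f : Pt k → ℝ) l, Continuous f → Continuous fun y => f y / S.L y l :=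
    fun f l hf => hf.div (cL l) (Lne l)
  have cdiv2 : ∀ (f : Pt k → ℝ) l, Continuous f → Continuous fun y => f y / S.L y l ^ 2 :=
    fun f l hf => hf.div ((cL l).pow 2) fun y => pow_ne_zero 2 (Lne l y)
  have cHA : ∀ j, Continuous (HAj j) := fun j => by
    have h1 := cdiv _ j ((cr j).mul (cb j j))
    have h2 := cdiv _ j (cG j)
    have h3 := cdiv _ j (cr j)
    have h4 := cdiv2 _ j ((cr j).mul (cb j j))
    have h5 := cN j
    have h6 := cs j
    have h7 := cr j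
    exact ((((h1.mul h5).mul (((continuous_const.sub (continuous_const.mul h2)).add
      continuous_const).sub (continuous_const.mul h2))).sub ((h7.mul h2).mul h5)).sub
      ((continuous_const.mul h3).mul (h6.pow 2))).sub ((continuous_const.mul h4).mul (h6.pow 2))
  have cQ2 : ∀ l, Continuous (Q2 l) := fun l => by
    have h4 := cdiv2 _ l ((cr l).mul (cb l l))
    exact continuous_const.mul (h4.mul (((cG l).mul (cN l)).sub ((cs l).pow 2)))
  have cQ3 : ∀ l, Continuous (Q3 l) := fun l => by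
    have h1 := cdiv _ l (continuous_const.mul ((cr l).mul (cb l l)) (f := fun _ => 2 * S.δ))
    have h3 := cdiv _ l (continuous_const.mul (cr l) (f := fun _ => 4 * S.δ))
    have h4 := cdiv2 _ l (continuous_const.mul ((cr l).mul (cb l l))
      (f := fun _ => 4 * S.δ * (1 - S.δ)))
    exact (((continuous_const.mul (cr l)).mul (cN l)).add (h3.mul ((cs l).pow 2))).sub
      (h1.mul (cN l)) |>.add (h4.mul ((cs l).pow 2))
  -- the pointwise bounds
  have hA : ∀ y, (∑ j, Q1 j y) - ∑ l, Q2 l y ≤ T1 y := fun y => by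
    have h := hAl n k S ψ hψ.1 y
    have e2 : ∑ l, Q2 l y = 4 * S.δ ^ 2 * ∑ l, (S.r y l * be S.m (S.r y) l l) / S.L y l ^ 2 *
        (Gm S.m y l l * Gm S.m (S.hf ψ y) l l -
          (∑ c, Yv S.m y l c * Yv S.m (S.hf ψ y) l c) ^ 2) := by
      rw [Finset.mul_sum]
      refine Finset.sum_congr rfl fun l _ => ?_
      rw [hGN]
      rfl
    rw [e2]
    exact h
  have hHs : ∀ y, T2 y ≤ -∑ l, Q3 l y := fun y => by
    have h := hHe n k S y (S.hf ψ y)
    simp only [hGN] at h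
    exact h
  have cT1 : Continuous T1 := by
    refine continuous_finsetSum _ fun p _ => continuous_finsetSum _ fun q _ => ?_
    exact (((cd_hf S ψ hR hψ.1 q).continuous_fderiv (by simp)).clm_apply continuous_const).mul
      (((cd_hf S ψ hR hψ.1 p).continuous_fderiv (by simp)).clm_apply continuous_const)
  have T10 : ∀ y, y ∉ tsupport ψ → T1 y = 0 := fun y hy => by
    refine Finset.sum_eq_zero fun p _ => Finset.sum_eq_zero fun q _ => ?_
    have h : (fun z => S.hf ψ z q) =ᶠ[𝓝 y] fun _ => 0 := by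
      filter_upwards [hf_ev S ψ hy] with z hz
      rw [hz]
      rfl
    have h2 : pd p (fun z => S.hf ψ z q) y = 0 := by
      unfold pd
      rw [h.fderiv_eq]
      simp
    rw [h2, zero_mul]
  have cT2 : Continuous T2 := by
    refine continuous_finsetSum _ fun p _ => continuous_finsetSum _ fun q _ => ?_
    have h1 : ContDiff ℝ (⊤ : ℕ∞) fun z => pd q w z :=
      (cw.fderiv_right (m := (⊤ : ℕ∞)) (by simp)).clm_apply contDiff_const
    exact ((cd_hf S ψ hR hψ.1 p).continuous.mul (cd_hf S ψ hR hψ.1 q).continuous).mul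
      ((h1.continuous_fderiv (by simp)).clm_apply continuous_const)
  have T20 : ∀ y, y ∉ tsupport ψ → T2 y = 0 := fun y hy => by
    refine Finset.sum_eq_zero fun p _ => Finset.sum_eq_zero fun q _ => ?_
    rw [hf_zero S ψ hy]
    simp
  -- Bochner
  have hFB := hFb (Fin k × Fin 3) w (S.hf ψ) cw fun p => tst_hf S ψ hR hψ p
  have hlhs : ∫ y, Lop S.rho S.A ψ y ^ 2 * S.rho y = ∫ y, (T1 y - T2 y) * S.rho y := by
    rw [show (∫ y, (T1 y - T2 y) * S.rho y) = ∫ y, (T1 y - T2 y) * Real.exp (w y) from by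
      simp only [hexp]]
    rw [← hFB]
    refine integral_congr_ae (Eventually.of_forall fun y => ?_)
    simp only [hexp]
    rfl
  -- Hardy
  have iQ1 : ∀ j, Integrable fun y => Q1 j y * S.rho y := fun j =>
    int_cs hψ ((cQ1 j).mul crho) fun y hy => by simp only [Q10 j y hy, zero_mul]
  have HA0 : ∀ j y, y ∉ tsupport ψ → HAj j y = 0 := fun j y hy => by
    simp only [HAj, N0 j y hy, s0 j y hy]
    ring
  have Q20 : ∀ j y, y ∉ tsupport ψ → Q2 j y = 0 := fun j y hy => by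
    simp only [Q2, N0 j y hy, s0 j y hy]
    ring
  have Q30 : ∀ j y, y ∉ tsupport ψ → Q3 j y = 0 := fun j y hy => by
    simp only [Q3, N0 j y hy, s0 j y hy]
    ring
  have iHA : ∀ j, Integrable fun y => HAj j y * S.rho y := fun j =>
    int_cs hψ ((cHA j).mul crho) fun y hy => by simp only [HA0 j y hy, zero_mul]
  have iQ2 : ∀ j, Integrable fun y => Q2 j y * S.rho y := fun j =>
    int_cs hψ ((cQ2 j).mul crho) fun y hy => by simp only [Q20 j y hy, zero_mul]
  have iQ3 : ∀ j, Integrable fun y => Q3 j y * S.rho y := fun j =>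
    int_cs hψ ((cQ3 j).mul crho) fun y hy => by simp only [Q30 j y hy, zero_mul]
  have hHardy : ∀ j, ∫ y, HAj j y * S.rho y ≤ ∫ y, Q1 j y * S.rho y := fun j =>
    hHa n k S j (fun d => Hh S ψ j d) fun d =>
      ⟨(cd_H S ψ hR hψ j d).of_le (by simp), H_cs S ψ hψ j d⟩
  -- assembly
  have step1 : ∫ y, ((∑ j, Q1 j y) - (∑ l, Q2 l y) + ∑ l, Q3 l y) * S.rho y ≤
      ∫ y, (T1 y - T2 y) * S.rho y := by
    refine integral_mono ?_ ?_ fun y => ?_
    · refine int_cs hψ (((continuous_finsetSum _ fun j _ => cQ1 j).sub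
        (continuous_finsetSum _ fun j _ => cQ2 j)).add
        (continuous_finsetSum _ fun j _ => cQ3 j) |>.mul crho) fun y hy => ?_
      simp only [Q10 _ y hy, Q20 _ y hy, Q30 _ y hy, Finset.sum_const_zero, sub_zero, add_zero,
        zero_mul]
    · refine int_cs hψ ((cT1.sub cT2).mul crho) fun y hy => ?_
      simp only [T10 y hy, T20 y hy, sub_zero, zero_mul]
    · refine mul_le_mul_of_nonneg_right ?_ (hR.rhopos y).le
      have := hA y
      have := hHs y
      linarith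
  have step2 : ∫ y, ((∑ j, Q1 j y) - (∑ l, Q2 l y) + ∑ l, Q3 l y) * S.rho y =
      (∑ j, ∫ y, Q1 j y * S.rho y) - (∑ l, ∫ y, Q2 l y * S.rho y) +
        ∑ l, ∫ y, Q3 l y * S.rho y := by
    rw [← integral_finsetSum _ fun j _ => iQ1 j, ← integral_finsetSum _ fun j _ => iQ2 j,
      ← integral_finsetSum _ fun j _ => iQ3 j,
      ← int3 (integrable_finsetSum _ fun j _ => iQ1 j)
        (integrable_finsetSum _ fun j _ => iQ2 j) (integrable_finsetSum _ fun j _ => iQ3 j)]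
    refine integral_congr_ae (Eventually.of_forall fun y => ?_)
    simp only
    rw [← Finset.sum_mul, ← Finset.sum_mul, ← Finset.sum_mul]
    ring
  have step3 : ∀ l, ∫ y, S.r y l * N l y * S.rho y ≤
      (∫ y, HAj l y * S.rho y) - (∫ y, Q2 l y * S.rho y) + ∫ y, Q3 l y * S.rho y := fun l => by
    rw [← int3 (iHA l) (iQ2 l) (iQ3 l)]
    refine integral_mono ?_ (((iHA l).sub (iQ2 l)).add (iQ3 l)) fun y => ?_
    · exact int_cs hψ (((cr l).mul (cN l)).mul crho) fun y hy => by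
        simp only [N0 l y hy, mul_zero, zero_mul]
    · change S.r y l * N l y * S.rho y ≤
        HAj l y * S.rho y - Q2 l y * S.rho y + Q3 l y * S.rho y
      rw [← sub_mul, ← add_mul]
      refine mul_le_mul_of_nonneg_right ?_ (hR.rhopos y).le
      exact point_ineq S.δ (S.r y l) (be S.m (S.r y) l l) (S.L y l) (Gm S.m y l l) (S.e l)
        (N l y) (s l y) S.hδ0 S.hδ1 (hL.rpos y l) ((hB y).nonneg l) rfl (S.he l)
        (Finset.sum_nonneg fun c _ => mul_self_nonneg _)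
        (Finset.sum_nonneg fun c _ => sq_nonneg _)
  calc ∫ y, Gam S.A ψ ψ y * S.rho y
      = ∫ y, ∑ l, S.r y l * N l y * S.rho y := by
        refine integral_congr_ae (Eventually.of_forall fun y => ?_)
        simp only
        rw [gam_eq S y (hB y), Finset.sum_mul]
        simp only [hGN]
    _ = ∑ l, ∫ y, S.r y l * N l y * S.rho y := by
        refine integral_finsetSum _ fun l _ => ?_
        exact int_cs hψ (((cr l).mul (cN l)).mul crho) fun y hy => by
          simp only [N0 l y hy, mul_zero, zero_mul]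
    _ ≤ ∑ l, ((∫ y, HAj l y * S.rho y) - (∫ y, Q2 l y * S.rho y) + ∫ y, Q3 l y * S.rho y) :=
        Finset.sum_le_sum fun l _ => step3 l
    _ ≤ ∑ l, ((∫ y, Q1 l y * S.rho y) - (∫ y, Q2 l y * S.rho y) + ∫ y, Q3 l y * S.rho y) :=
        Finset.sum_le_sum fun l _ => by linarith [hHardy l]
    _ = (∑ j, ∫ y, Q1 j y * S.rho y) - (∑ l, ∫ y, Q2 l y * S.rho y) +
        ∑ l, ∫ y, Q3 l y * S.rho y := by
        rw [Finset.sum_add_distrib, Finset.sum_sub_distrib]
    _ ≤ ∫ y, (T1 y - T2 y) * S.rho y := by rw [← step2]; exact step1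
    _ = ∫ y, Lop S.rho S.A ψ y ^ 2 * S.rho y := hlhs.symm

end Pool.Agent.Lib.MP_fa837f_gt.P2.H91
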